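import Pool.Agent.Helper76.TB.Goals2
import Pool.Agent.Helper17.TB.UNI
import Pool.Agent.Helper12.TB.INV
import Pool.Agent.Helper47.TB.GZL

/-!
# Project TB: packet U-UNI2, uniformity with relative error

Model: `Pool/Agent/Helper17/TB/UNI.lean`.
-/

set_option autoImplicit false

open Finset Filter Topology

namespace Pool.Agent.Helper87.TB

open Pool.Agent.Helper90.Twin (Ps Gz Sz XX yy Xz avgI errB sig SieveSys Gz_pos Gz_le_one)
open Pool.Agent.Helper60.BFT (XA yA Av lg Av_sum Av_sub Av_mul_left Av_ext B0 B1 B2)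
open Pool.Agent.Helper76.TB
open Pool.Agent.Helper17.TB (alt_sum)

theorem Sz_nonneg (b : ℕ) : 0 ≤ Sz b := by
  unfold Sz
  exact Finset.sum_nonneg fun p _ => by positivity

theorem errU_first_nonneg (b k m : ℕ) : 0 ≤ (2 * (k : ℝ) * Sz b) ^ m / (m.factorial : ℝ) := by
  have := Sz_nonneg b
  positivity

theorem errU_nonneg (r b k m M N : ℕ) : 0 ≤ errU r b k m M N := by
  unfold errU
  have := errU_first_nonneg b k m
  positivity

theorem errU_mono_N (r b k m M : ℕ) {N N' : ℕ} (h : N' ≤ N) :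
    errU r b k m M N' ≤ errU r b k m M N := by
  unfold errU
  have h1 : (N' : ℝ) ≤ N := by exact_mod_cast h
  have h2 := errU_first_nonneg b k m
  have h3 : 3 * (N' : ℝ) * ((2 * (k : ℝ) * Sz b) ^ m / (m.factorial : ℝ)) ≤
      3 * (N : ℝ) * ((2 * (k : ℝ) * Sz b) ^ m / (m.factorial : ℝ)) :=
    mul_le_mul_of_nonneg_right (by linarith) h2
  linarith

theorem EU_mul (c C : ℝ) (Z r N : ℕ) : EU c (10 * C) Z r N = 10 * EU c C Z r N := by
  unfold EU
  ring

theorem EU_nonneg (c C : ℝ) (hC : 0 ≤ C) (Z r N : ℕ) : 0 ≤ EU c C Z r N := by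
  unfold EU
  have h1 : 0 ≤ 1 / Real.log Z ^ 6 := by positivity
  have h2 := Real.exp_pos (-(c * (Real.log N / Real.log r)))
  exact mul_nonneg hC (by linarith)

theorem sgm_nonneg (k M : ℕ) : 0 ≤ sgm k M := by
  unfold sgm
  positivity

/-- `H0 * Gz Z < 1` for large `Z` -/
theorem gz_small (H0 : ℕ) : ∀ᶠ Z : ℕ in atTop, H0 * Gz Z < 1 := by
  obtain ⟨c, C, hc, h⟩ := Pool.Agent.Helper47.TB.gzl
  have hlog : Tendsto (fun Z : ℕ => Real.log Z ^ 2) atTop atTop :=
    (tendsto_pow_atTop (by norm_num : (2 : ℕ) ≠ 0)).comp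
      (Real.tendsto_log_atTop.comp tendsto_natCast_atTop_atTop)
  filter_upwards [h, hlog.eventually_gt_atTop (H0 * C + 1), hlog.eventually_gt_atTop 0]
    with Z h1 h2 h3
  have h4 : (H0 : ℝ) * (Gz Z * Real.log Z ^ 2) ≤ H0 * C :=
    mul_le_mul_of_nonneg_left h1.2 (Nat.cast_nonneg _)
  by_contra hcon
  push Not at hcon
  have h5 : Real.log Z ^ 2 ≤ H0 * Gz Z * Real.log Z ^ 2 := by nlinarith
  nlinarith

/-- the exponential series without the constant term -/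
theorem exp_tail (x : ℝ) (hx : 0 ≤ x) (n : ℕ) :
    ∑ j ∈ range n, x ^ (j + 1) / ((j + 1).factorial : ℝ) ≤ Real.exp x := by
  have h := Real.sum_le_exp_of_nonneg hx (n + 1)
  rw [Finset.sum_range_succ'] at h
  have h1 : (0 : ℝ) ≤ x ^ 0 / ((0).factorial : ℝ) := by positivity
  linarith

theorem uni2 (h1 : CORR2G) (h2 : TAIL0G) (h3 : TRANS2G) (h4 : SIZE2G) :
    Pool.Agent.Helper76.TB.UNI2G := by
  have hinv := Pool.Agent.Helper12.TB.inv
  obtain ⟨C0, hC0, hT⟩ := h2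
  obtain ⟨c1, c2, C, hc1, hc2, hC, hS⟩ := h4 C0 hC0
  rw [eventually_atTop] at hT
  obtain ⟨H0, hT⟩ := hT
  refine ⟨c1, c2, 10 * C, hc1, hc2, by positivity, ?_⟩
  filter_upwards [hS, gz_small H0] with Z hS hZ0
  intro r N H a1 a2 a3 a4 a5 a6 A
  obtain ⟨J, R, m, M, s1, s2, s3, s4, s5, s6, s7, s8, s9, s10⟩ := hS r N H a1 a2 a3 a4 a5 a6
  have hG0 := Gz_pos Z
  have hG1 := Gz_le_one Z
  have hH1 : 1 ≤ H := by
    rcases Nat.eq_zero_or_pos H with h | h
    · rw [h] at a4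
      norm_num at a4
    · exact h
  have hH0 : H0 ≤ H := by
    by_contra hcon
    push Not at hcon
    have h5 : (H : ℝ) ≤ H0 := by exact_mod_cast hcon.le
    have h6 : (H : ℝ) * Gz Z ≤ H0 * Gz Z := mul_le_mul_of_nonneg_right h5 hG0.le
    linarith
  rw [EU_mul]
  set E := EU c2 C Z r N with hE
  have hE0 : 0 ≤ E := EU_nonneg c2 C hC.le Z r N
  have hN0 : (0 : ℝ) ≤ N := Nat.cast_nonneg N
  set T : ℝ := N * Gz Z * E with hTT
  have hT0 : 0 ≤ T := by positivity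
  have hTe : N * Gz Z * (10 * E) = 10 * T := by
    rw [hTT]
    ring
  rw [hTe]
  have hx0 : 0 ≤ C0 * (H * Gz Z) := by
    have : 0 ≤ C0 := by linarith
    positivity
  have hsg := sgm_nonneg (R + 2) M
  have hsE : sgm (R + 2) M ≤ E := by
    refine le_trans ?_ s7
    have h5 : 1 ≤ Real.exp (C0 * (H * Gz Z)) := Real.one_le_exp hx0
    nlinarith
  have hsN : 2 * sgm (R + 2) M * (N * Gz Z) ≤ 2 * T := by
    rw [hTT]
    have h5 : (0 : ℝ) ≤ N * Gz Z := by positivity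
    nlinarith [mul_le_mul_of_nonneg_left hsE h5]
  have herr : errU r (Nat.sqrt^[J] r) (R + 2) m M N ≤ T := by
    refine le_trans ?_ s9
    have h5 := errU_nonneg r (Nat.sqrt^[J] r) (R + 2) m M N
    have h6 : (1 : ℝ) ≤ ((R : ℝ) + 1) * (H : ℝ) ^ (R + 1) := by
      have h7 : (1 : ℝ) ≤ (H : ℝ) ^ (R + 1) := one_le_pow₀ (by exact_mod_cast hH1)
      have h8 : (1 : ℝ) ≤ (R : ℝ) + 1 := by
        have : (0 : ℝ) ≤ R := Nat.cast_nonneg R
        linarith
      nlinarith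
    nlinarith
  have k1 := fun N => (h1 r Z J (R + 2) m M N a2 (by omega) s1 s2 s3 s4).1
  have k2 := fun N => (h1 r Z J (R + 2) m M N a2 (by omega) s1 s2 s3 s4).2
  have hsum : |Av (lg r Z) (fun B => B0 (XA Z B) N) A - N * Gz Z| ≤ 3 * T := by
    have h := k1 N {0} (by rw [Finset.card_singleton]; omega) A
    rw [hinv.2.2.2 Z] at h
    have e : Av (lg r Z) (fun B => ∑ t ∈ range N, ∏ i ∈ ({0} : Finset ℕ), XA Z B (t + i)) A =
        Av (lg r Z) (fun B => B0 (XA Z B) N) A :=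
      Av_ext _ _ _ _ fun B => by simp [B0]
    rw [e] at h
    linarith
  refine ⟨?_, by linarith, ?_⟩
  · intro c hc
    have ht := h3 r Z J H R m M N A c a2 hH1 s1 s2 s3 s4 hc
    have hTZ : ∀ j ≤ R, TZ Z H (j + 1) ≤
        Gz Z * ((C0 * (H * Gz Z)) ^ (j + 1) / ((j + 1).factorial : ℝ)) :=
      fun j hj => hT H hH0 Z s6 (j + 1) (by omega)
    have hsumT : ∑ j ∈ range (R + 1), TZ Z H (j + 1) ≤ Gz Z * Real.exp (C0 * (H * Gz Z)) := by
      calc ∑ j ∈ range (R + 1), TZ Z H (j + 1)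
          ≤ ∑ j ∈ range (R + 1),
            Gz Z * ((C0 * (H * Gz Z)) ^ (j + 1) / ((j + 1).factorial : ℝ)) :=
            Finset.sum_le_sum fun j hj => hTZ j (by have := Finset.mem_range.1 hj; omega)
        _ = Gz Z * ∑ j ∈ range (R + 1),
            ((C0 * (H * Gz Z)) ^ (j + 1) / ((j + 1).factorial : ℝ)) := by rw [Finset.mul_sum]
        _ ≤ _ := mul_le_mul_of_nonneg_left (exp_tail _ hx0 _) hG0.le
    have t1 : 2 * sgm (R + 2) M * N * (∑ j ∈ range (R + 1), TZ Z H (j + 1)) ≤ 2 * T := by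
      have u1 : 2 * sgm (R + 2) M * N * (∑ j ∈ range (R + 1), TZ Z H (j + 1)) ≤
          2 * sgm (R + 2) M * N * (Gz Z * Real.exp (C0 * (H * Gz Z))) :=
        mul_le_mul_of_nonneg_left hsumT (by positivity)
      have u3 : 2 * (N * Gz Z) * (sgm (R + 2) M * Real.exp (C0 * (H * Gz Z))) ≤
          2 * (N * Gz Z) * E := mul_le_mul_of_nonneg_left s7 (by positivity)
      rw [hTT]
      linarith
    have t3 : 2 * N * TZ Z H (R + 1) ≤ 2 * T := by
      have u1 := hTZ R le_rfl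
      have u2 := mul_le_mul_of_nonneg_left s8 hG0.le
      have u3 : 2 * (N : ℝ) * TZ Z H (R + 1) ≤ 2 * N * (Gz Z * E) :=
        mul_le_mul_of_nonneg_left (u1.trans u2) (by positivity)
      rw [hTT]
      linarith
    linarith
  · have e : Av (lg r Z) (fun B => B1 (XA Z B) N) A =
        2 * Av (lg r Z) (fun B => ∑ t ∈ range ((N + 1) / 2), XA Z B (2 * t)) A -
          Av (lg r Z) (fun B => B0 (XA Z B) N) A := by
      rw [← Av_mul_left, ← Av_sub]
      exact Av_ext _ _ _ _ fun B => alt_sum _ _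
    have hM : (N + 1) / 2 ≤ N := by omega
    have hM' : (((N + 1) / 2 : ℕ) : ℝ) ≤ N := by exact_mod_cast hM
    have g1 := k2 ((N + 1) / 2) A
    have g2 := errU_mono_N r (Nat.sqrt^[J] r) (R + 2) m M hM
    have g3 : 2 * sgm (R + 2) M * ((((N + 1) / 2 : ℕ) : ℝ) * Gz Z) ≤ 2 * T := by
      refine le_trans ?_ hsN
      exact mul_le_mul_of_nonneg_left (mul_le_mul_of_nonneg_right hM' hG0.le) (by positivity)
    have g4 : |Av (lg r Z) (fun B => ∑ t ∈ range ((N + 1) / 2), XA Z B (2 * t)) A -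
        (((N + 1) / 2 : ℕ) : ℝ) * Gz Z| ≤ 3 * T := by linarith
    have hM2 : |2 * (((N + 1) / 2 : ℕ) : ℝ) - N| ≤ 1 := by
      have q1 : 2 * ((N + 1) / 2) ≤ N + 1 := by omega
      have q2 : N ≤ 2 * ((N + 1) / 2) := by omega
      have q1' : 2 * (((N + 1) / 2 : ℕ) : ℝ) ≤ N + 1 := by exact_mod_cast q1
      have q2' : (N : ℝ) ≤ 2 * (((N + 1) / 2 : ℕ) : ℝ) := by exact_mod_cast q2
      rw [abs_le]
      constructor <;> linarith
    have hM3 : |(2 * (((N + 1) / 2 : ℕ) : ℝ) - N) * Gz Z| ≤ 1 := by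
      rw [abs_mul, abs_of_pos hG0]
      calc _ ≤ 1 * 1 := mul_le_mul hM2 hG1 hG0.le (by norm_num)
        _ = 1 := one_mul 1
    rw [e]
    rw [abs_le] at g4 hsum hM3
    rw [abs_le]
    constructor <;> linarith [g4.1, g4.2, hsum.1, hsum.2, hM3.1, hM3.2]

end Pool.Agent.Helper87.TB
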